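import Mathlib

set_option autoImplicit false

/-!
# Infinitely many deficient KL-primitive numbers

For a finite set `S` of primes, `KL(∏ S) / σ(∏ S) = -log 2 + ∑_{p ∈ S} w(p)` with
`w(p) = p/(p+1) * log (p/(p-1))`, and `w` is decreasing.  Take `2` together with all primes in
`(P, q]`, where `q` is the first prime making the sum reach `log 2`.
-/

namespace Pool.Agent.Results.MP_8dd099_nt.InfinitelyMany

open Finset Filter Topology

/-- `KL(n) = ∑_{d ∣ n} d log (d / (2 φ(d)))` -/
noncomputable def KL (n : ℕ) : ℝ :=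
  ∑ d ∈ n.divisors, (d : ℝ) * Real.log ((d : ℝ) / (2 * (Nat.totient d : ℝ)))

/-- `n` is a positive integer with `σ(n) < 2n` -/
def IsDeficient (n : ℕ) : Prop := 0 < n ∧ ∑ d ∈ n.divisors, d < 2 * n

/-- `n` is a positive integer with `KL(n) ≥ 0` and `KL(d) < 0` for all divisors `d < n` -/
def IsKLPrimitive (n : ℕ) : Prop := 0 < n ∧ 0 ≤ KL n ∧ ∀ d : ℕ, d ∣ n → d < n → KL d < 0

/-- sum of divisors as a real number -/
noncomputable def sig (n : ℕ) : ℝ := ∑ d ∈ n.divisors, (d : ℝ)

/-- the weight of a prime -/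
noncomputable def w (p : ℕ) : ℝ := (p : ℝ) / (p + 1) * Real.log ((p : ℝ) / (p - 1))

lemma sum_div (m p : ℕ) (hp : p.Prime) (hm : 0 < m) (hnd : ¬ p ∣ m) (f : ℕ → ℝ) :
    ∑ d ∈ (m * p).divisors, f d = ∑ d ∈ m.divisors, (f d + f (d * p)) := by
  classical
  have h1 : (m * p).divisors = m.divisors ∪ m.divisors.image (fun d => d * p) := by
    ext d
    rw [mem_union, mem_image, Nat.mem_divisors, Nat.mem_divisors]
    constructor
    · rintro ⟨h, _⟩
      by_cases hd : p ∣ d
      · obtain ⟨e, rfl⟩ := hd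
        right
        refine ⟨e, Nat.mem_divisors.2 ⟨?_, hm.ne'⟩, mul_comm _ _⟩
        rw [mul_comm p e] at h
        exact Nat.dvd_of_mul_dvd_mul_right hp.pos h
      · left
        refine ⟨?_, hm.ne'⟩
        exact (Nat.Coprime.dvd_of_dvd_mul_right ((Nat.Prime.coprime_iff_not_dvd hp).2 hd).symm h)
    · rintro (⟨h, _⟩ | ⟨e, he, rfl⟩)
      · exact ⟨h.mul_right p, (Nat.mul_pos hm hp.pos).ne'⟩
      · exact ⟨Nat.mul_dvd_mul_right (Nat.dvd_of_mem_divisors he) p, (Nat.mul_pos hm hp.pos).ne'⟩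
  have h2 : Disjoint m.divisors (m.divisors.image (fun d => d * p)) := by
    rw [disjoint_left]
    intro d hd hd'
    rw [mem_image] at hd'
    obtain ⟨e, _, rfl⟩ := hd'
    exact hnd ((Dvd.intro_left e rfl).trans (Nat.dvd_of_mem_divisors hd))
  rw [h1, sum_union h2, sum_image, sum_add_distrib]
  intro a _ b _ hab
  exact Nat.eq_of_mul_eq_mul_right hp.pos hab

lemma sig_mul (m p : ℕ) (hp : p.Prime) (hm : 0 < m) (hnd : ¬ p ∣ m) :
    sig (m * p) = (p + 1) * sig m := by
  unfold sig
  rw [sum_div m p hp hm hnd, mul_sum]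
  apply sum_congr rfl
  intro d _
  push_cast
  ring

lemma KL_mul (m p : ℕ) (hp : p.Prime) (hm : 0 < m) (hnd : ¬ p ∣ m) :
    KL (m * p) = (p + 1) * KL m + p * Real.log ((p : ℝ) / (p - 1)) * sig m := by
  unfold KL sig
  rw [sum_div m p hp hm hnd, mul_sum, mul_sum, ← sum_add_distrib]
  apply sum_congr rfl
  intro d hd
  have hd0 : d ≠ 0 := (Nat.pos_of_mem_divisors hd).ne'
  have hpd : ¬ p ∣ d := fun h => hnd (h.trans (Nat.dvd_of_mem_divisors hd))
  have ht : Nat.totient (d * p) = Nat.totient d * (p - 1) := by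
    rw [Nat.totient_mul ((Nat.Prime.coprime_iff_not_dvd hp).2 hpd).symm, Nat.totient_prime hp]
  have hp1 : 1 < p := hp.one_lt
  have hcast : ((p - 1 : ℕ) : ℝ) = (p : ℝ) - 1 := by
    rw [Nat.cast_sub hp1.le]; simp
  have hpr : (0:ℝ) < (p : ℝ) - 1 := by
    have : (1:ℝ) < p := by exact_mod_cast hp1
    linarith
  have hp0 : (0:ℝ) < p := by linarith
  have hd0' : (0:ℝ) < d := by exact_mod_cast Nat.pos_of_ne_zero hd0
  have ht0 : (0:ℝ) < (Nat.totient d : ℝ) := by
    exact_mod_cast Nat.totient_pos.2 (Nat.pos_of_ne_zero hd0)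
  have e : ((d * p : ℕ) : ℝ) / (2 * (Nat.totient (d * p) : ℝ)) =
      ((d : ℝ) / (2 * (Nat.totient d : ℝ))) * ((p : ℝ) / (p - 1)) := by
    rw [ht]
    push_cast
    rw [hcast]
    field_simp
  rw [e, Real.log_mul (by positivity) (by positivity)]
  push_cast
  ring

lemma prod_pos' (S : Finset ℕ) (hS : ∀ p ∈ S, p.Prime) : 0 < ∏ p ∈ S, p :=
  Finset.prod_pos fun p hp => (hS p hp).pos

lemma not_dvd_prod (S : Finset ℕ) (hS : ∀ p ∈ S, p.Prime) (q : ℕ) (hq : q.Prime) (hqS : q ∉ S) :
    ¬ q ∣ ∏ p ∈ S, p := by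
  intro h
  obtain ⟨r, hr, hqr⟩ := (Prime.dvd_finsetProd_iff hq.prime _).1 h
  have := (Nat.prime_dvd_prime_iff_eq hq (hS r hr)).1 hqr
  subst this
  exact hqS hr

lemma sqf_prod (S : Finset ℕ) (hS : ∀ p ∈ S, p.Prime) : Squarefree (∏ p ∈ S, p) := by
  classical
  induction S using Finset.induction_on with
  | empty => simp
  | insert a s ha ih =>
    have hs : ∀ p ∈ s, p.Prime := fun p hp => hS p (mem_insert_of_mem hp)
    have hap := hS a (mem_insert_self a s)
    rw [prod_insert ha, Nat.squarefree_mul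
      ((Nat.Prime.coprime_iff_not_dvd hap).2 (not_dvd_prod s hs a hap ha))]
    exact ⟨hap.prime.squarefree, ih hs⟩

lemma sig_prod (S : Finset ℕ) (hS : ∀ p ∈ S, p.Prime) :
    sig (∏ p ∈ S, p) = ∏ p ∈ S, ((p : ℝ) + 1) := by
  classical
  induction S using Finset.induction_on with
  | empty => simp [sig]
  | insert a s ha ih =>
    have hs : ∀ p ∈ s, p.Prime := fun p hp => hS p (mem_insert_of_mem hp)
    rw [prod_insert ha, prod_insert ha, mul_comm a, sig_mul _ _ (hS a (mem_insert_self a s))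
      (prod_pos' s hs) (not_dvd_prod s hs a (hS a (mem_insert_self a s)) ha), ih hs]

lemma KL_prod (S : Finset ℕ) (hS : ∀ p ∈ S, p.Prime) :
    KL (∏ p ∈ S, p) = (∏ p ∈ S, ((p : ℝ) + 1)) * (-Real.log 2 + ∑ p ∈ S, w p) := by
  classical
  induction S using Finset.induction_on with
  | empty =>
    simp [KL]
  | insert a s ha ih =>
    have hs : ∀ p ∈ s, p.Prime := fun p hp => hS p (mem_insert_of_mem hp)
    have hap := hS a (mem_insert_self a s)
    rw [prod_insert ha, prod_insert ha, sum_insert ha, mul_comm a, KL_mul _ _ hap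
      (prod_pos' s hs) (not_dvd_prod s hs a hap ha), ih hs, sig_prod s hs]
    unfold w
    have h1 : (a : ℝ) + 1 ≠ 0 := by positivity
    field_simp
    ring

/-- `w` is decreasing -/
lemma w_succ_le (n : ℕ) (hn : 2 ≤ n) : w (n + 1) ≤ w n := by
  have hx : (2:ℝ) ≤ n := by exact_mod_cast hn
  unfold w
  push_cast
  set x : ℝ := (n:ℝ) with hxdef
  have e1 : x + 1 - 1 = x := by ring
  rw [e1]
  have h0 : 0 < x := by linarith
  have h1 : 0 < x - 1 := by linarith
  have h2 : 0 < x + 1 := by linarith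
  -- a = log ((x+1)/x) ≤ 1/x
  have ha : Real.log ((x + 1) / x) ≤ 1 / x := by
    have := Real.log_le_sub_one_of_pos (show 0 < (x + 1) / x by positivity)
    have e : (x + 1) / x - 1 = 1 / x := by field_simp; ring
    linarith
  have ha0 : 0 ≤ Real.log ((x + 1) / x) := by
    apply Real.log_nonneg
    rw [le_div_iff₀ h0]; linarith
  -- b - a = log (x^2/(x^2-1)) ≥ 1/x^2
  have hb : Real.log ((x + 1) / x) + 1 / x ^ 2 ≤ Real.log (x / (x - 1)) := by
    have h3 : 0 < x ^ 2 - 1 := by nlinarith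
    have h4 : Real.log (x / (x - 1)) = Real.log ((x + 1) / x) + Real.log (x ^ 2 / (x ^ 2 - 1)) := by
      rw [← Real.log_mul (by positivity) (by positivity)]
      congr 1
      have : x ^ 2 - 1 = (x - 1) * (x + 1) := by ring
      rw [this]
      field_simp
    rw [h4]
    have h5 := Real.one_sub_inv_le_log_of_pos (show 0 < x ^ 2 / (x ^ 2 - 1) by positivity)
    have h6 : 1 - (x ^ 2 / (x ^ 2 - 1))⁻¹ = 1 / x ^ 2 := by
      rw [inv_div]
      field_simp
      ring
    linarith
  set a := Real.log ((x + 1) / x)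
  set b := Real.log (x / (x - 1))
  -- (x+1)/(x+2) a ≤ x/(x+1) b
  have hb0 : 0 ≤ b := by
    have : 0 < 1 / x ^ 2 := by positivity
    linarith
  have key : a * (1 + 1 / x) ≤ b * (1 + 1 / (x + 1)) := by
    have h7 : a * (1 / x) ≤ 1 / x ^ 2 := by
      calc a * (1 / x) ≤ (1 / x) * (1 / x) := mul_le_mul_of_nonneg_right ha (by positivity)
        _ = 1 / x ^ 2 := by field_simp
    have h8 : 0 ≤ b * (1 / (x + 1)) := by positivity
    linarith
  have e2 : (x + 1) / (x + 1 + 1) * a = (a * (1 + 1 / x)) * (x / (x + 2)) := by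
    field_simp
    ring
  have e3 : x / (x + 1) * b = (b * (1 + 1 / (x + 1))) * (x / (x + 2)) := by
    field_simp
    ring
  rw [e2, e3]
  exact mul_le_mul_of_nonneg_right key (by positivity)

lemma w_anti (m n : ℕ) (hm : 2 ≤ m) (h : m ≤ n) : w n ≤ w m := by
  induction n, h using Nat.le_induction with
  | base => exact le_rfl
  | succ n hmn ih => exact (w_succ_le n (hm.trans hmn)).trans ih

lemma w_lower (n : ℕ) (hn : 2 ≤ n) : 1 / ((n:ℝ) + 1) ≤ w n := by
  have hx : (2:ℝ) ≤ n := by exact_mod_cast hn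
  unfold w
  set x : ℝ := (n:ℝ)
  have h1 : 0 < x - 1 := by linarith
  have h5 := Real.one_sub_inv_le_log_of_pos (show 0 < x / (x - 1) by positivity)
  have h6 : 1 - (x / (x - 1))⁻¹ = 1 / x := by
    rw [inv_div]
    field_simp
    ring
  rw [h6] at h5
  calc 1 / (x + 1) = x / (x + 1) * (1 / x) := by field_simp
    _ ≤ _ := mul_le_mul_of_nonneg_left h5 (by positivity)

lemma w_upper (n : ℕ) (hn : 2 ≤ n) : w n ≤ 1 / ((n:ℝ) - 1) := by
  have hx : (2:ℝ) ≤ n := by exact_mod_cast hn
  unfold w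
  set x : ℝ := (n:ℝ)
  have h1 : 0 < x - 1 := by linarith
  have h0 : 0 ≤ Real.log (x / (x - 1)) := by
    apply Real.log_nonneg
    rw [le_div_iff₀ h1]; linarith
  have h5 := Real.log_le_sub_one_of_pos (show 0 < x / (x - 1) by positivity)
  have h6 : x / (x - 1) - 1 = 1 / (x - 1) := by field_simp; ring
  rw [h6] at h5
  have h7 : x / (x + 1) ≤ 1 := by rw [div_le_one (by linarith)]; linarith
  calc x / (x + 1) * Real.log (x / (x - 1)) ≤ 1 * Real.log (x / (x - 1)) :=
        mul_le_mul_of_nonneg_right h7 h0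
    _ ≤ _ := by linarith

/-- `log (1 + 1/p) ≤ w(p)` -/
lemma log_le_w (n : ℕ) (hn : 2 ≤ n) : Real.log (1 + 1 / (n:ℝ)) ≤ w n := by
  have hx : (2:ℝ) ≤ n := by exact_mod_cast hn
  unfold w
  set x : ℝ := (n:ℝ)
  have h0 : 0 < x := by linarith
  have h1 : 0 < x - 1 := by linarith
  have e1 : (1 + 1 / x) = (x + 1) / x := by field_simp
  rw [e1]
  have ha : Real.log ((x + 1) / x) ≤ 1 / x := by
    have := Real.log_le_sub_one_of_pos (show 0 < (x + 1) / x by positivity)
    have e : (x + 1) / x - 1 = 1 / x := by field_simp; ring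
    linarith
  have hb : Real.log ((x + 1) / x) + 1 / x ^ 2 ≤ Real.log (x / (x - 1)) := by
    have h3 : 0 < x ^ 2 - 1 := by nlinarith
    have h4 : Real.log (x / (x - 1)) = Real.log ((x + 1) / x) + Real.log (x ^ 2 / (x ^ 2 - 1)) := by
      rw [← Real.log_mul (by positivity) (by positivity)]
      congr 1
      have : x ^ 2 - 1 = (x - 1) * (x + 1) := by ring
      rw [this]
      field_simp
    rw [h4]
    have h5 := Real.one_sub_inv_le_log_of_pos (show 0 < x ^ 2 / (x ^ 2 - 1) by positivity)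
    have h6 : 1 - (x ^ 2 / (x ^ 2 - 1))⁻¹ = 1 / x ^ 2 := by
      rw [inv_div]
      field_simp
      ring
    linarith
  set a := Real.log ((x + 1) / x)
  set b := Real.log (x / (x - 1))
  have h7 : a * (1 / x) ≤ 1 / x ^ 2 := by
    calc a * (1 / x) ≤ (1 / x) * (1 / x) := mul_le_mul_of_nonneg_right ha (by positivity)
      _ = 1 / x ^ 2 := by field_simp
  have key : a * (1 + 1 / x) ≤ b := by linarith
  have e2 : a = (x / (x + 1)) * (a * (1 + 1 / x)) := by field_simp
  rw [e2]
  exact mul_le_mul_of_nonneg_left key (by positivity)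

/-- primes in `(P, k]` -/
def PS (P k : ℕ) : Finset ℕ := (Ioc P k).filter Nat.Prime

lemma sum_unbounded (P : ℕ) (hP : 2 ≤ P) (B : ℝ) : ∃ k : ℕ, B ≤ ∑ p ∈ PS P k, w p := by
  classical
  have h1 : Tendsto (fun n => ∑ i ∈ range n, Set.indicator {p : ℕ | p.Prime} (fun n : ℕ => (1:ℝ) / n) i)
      atTop atTop := by
    rw [← not_summable_iff_tendsto_nat_atTop_of_nonneg]
    · exact not_summable_one_div_on_primes
    · intro n
      apply Set.indicator_nonneg
      intros; positivity
  obtain ⟨k, hk⟩ := (h1.eventually (eventually_ge_atTop (2 * B +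
    ∑ i ∈ range (P + 1), Set.indicator {p : ℕ | p.Prime} (fun n : ℕ => (1:ℝ) / n) i))).exists
  refine ⟨k, ?_⟩
  have hnn : ∀ i : ℕ, 0 ≤ Set.indicator {p : ℕ | p.Prime} (fun n : ℕ => (1:ℝ) / n) i := by
    intro n
    apply Set.indicator_nonneg
    intros; positivity
  have hsub : range k ⊆ range (P + 1) ∪ Ioc P k := by
    intro i hi
    rw [mem_range] at hi
    rw [mem_union, mem_range, mem_Ioc]
    omega
  have h2 : ∑ i ∈ range k, Set.indicator {p : ℕ | p.Prime} (fun n : ℕ => (1:ℝ) / n) i ≤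
      ∑ i ∈ range (P + 1), Set.indicator {p : ℕ | p.Prime} (fun n : ℕ => (1:ℝ) / n) i +
      ∑ i ∈ Ioc P k, Set.indicator {p : ℕ | p.Prime} (fun n : ℕ => (1:ℝ) / n) i := by
    refine (sum_le_sum_of_subset_of_nonneg hsub (fun i _ _ => hnn i)).trans ?_
    rw [← sum_union_inter]
    have : 0 ≤ ∑ i ∈ range (P + 1) ∩ Ioc P k, Set.indicator {p : ℕ | p.Prime} (fun n : ℕ => (1:ℝ) / n) i :=
      sum_nonneg fun i _ => hnn i
    linarith
  have h3 : ∑ i ∈ Ioc P k, Set.indicator {p : ℕ | p.Prime} (fun n : ℕ => (1:ℝ) / n) i ≤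
      2 * ∑ p ∈ PS P k, w p := by
    unfold PS
    rw [mul_sum, sum_filter]
    apply sum_le_sum
    intro i hi
    rw [mem_Ioc] at hi
    by_cases hp : i.Prime
    · rw [if_pos hp, Set.indicator_of_mem (show i ∈ {p : ℕ | p.Prime} from hp)]
      have h4 := w_lower i (by omega)
      have h5 : (1:ℝ) / i ≤ 2 * (1 / ((i:ℝ) + 1)) := by
        have : (2:ℝ) ≤ i := by exact_mod_cast (by omega : 2 ≤ i)
        rw [mul_one_div, div_le_div_iff₀ (by linarith) (by linarith)]
        linarith
      linarith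
    · rw [if_neg hp, Set.indicator_of_notMem (show i ∉ {p : ℕ | p.Prime} from hp)]
  linarith

lemma exists_large (P : ℕ) (hP : 31 ≤ P) : ∃ n : ℕ, P < n ∧ IsDeficient n ∧ IsKLPrimitive n := by
  classical
  have hlog2 : 0 < Real.log 2 := Real.log_pos (by norm_num)
  have w2 : w 2 = 2 / 3 * Real.log 2 := by
    unfold w; norm_num
  have hex : ∃ k : ℕ, Real.log 2 ≤ w 2 + ∑ p ∈ PS P k, w p := by
    obtain ⟨k, hk⟩ := sum_unbounded P (by omega) (Real.log 2)
    exact ⟨k, by rw [w2]; linarith⟩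
  set q := Nat.find hex with hq
  have hqs : Real.log 2 ≤ w 2 + ∑ p ∈ PS P q, w p := Nat.find_spec hex
  have hqP : P < q := by
    by_contra hcon
    push Not at hcon
    have : PS P q = ∅ := by
      unfold PS
      rw [Ioc_eq_empty (by omega)]
      rfl
    rw [this, sum_empty, w2] at hqs
    linarith
  have hq1 : w 2 + ∑ p ∈ PS P (q - 1), w p < Real.log 2 := by
    have := Nat.find_min hex (m := q - 1) (by omega)
    push Not at this
    exact this
  have hIoc : Ioc P q = insert q (Ioc P (q - 1)) := by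
    ext i
    rw [mem_insert, mem_Ioc, mem_Ioc]
    omega
  have hqprime : q.Prime := by
    by_contra hcon
    have : PS P q = PS P (q - 1) := by
      unfold PS
      rw [hIoc, filter_insert, if_neg hcon]
    rw [this] at hqs
    linarith
  have hPSq : PS P q = insert q (PS P (q - 1)) := by
    unfold PS
    rw [hIoc, filter_insert, if_pos hqprime]
  have hqnot : q ∉ PS P (q - 1) := by
    unfold PS
    rw [mem_filter, mem_Ioc]
    omega
  have h2not : 2 ∉ PS P q := by
    unfold PS
    rw [mem_filter, mem_Ioc]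
    omega
  set S := insert 2 (PS P q) with hS
  have hSp : ∀ p ∈ S, p.Prime := by
    intro p hp
    rw [hS, mem_insert] at hp
    rcases hp with rfl | hp
    · exact Nat.prime_two
    · exact (mem_filter.1 hp).2
  have hSq : ∀ p ∈ S, 2 ≤ p ∧ p ≤ q := by
    intro p hp
    refine ⟨(hSp p hp).two_le, ?_⟩
    rw [hS, mem_insert] at hp
    rcases hp with rfl | hp
    · omega
    · exact (mem_Ioc.1 (mem_filter.1 hp).1).2
  have hsumS : ∑ p ∈ S, w p = w 2 + ∑ p ∈ PS P q, w p := by rw [hS, sum_insert h2not]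
  have hsumS_lt : ∑ p ∈ S, w p < Real.log 2 + w q := by
    rw [hsumS, hPSq, sum_insert hqnot]
    linarith
  have hsumS_ge : Real.log 2 ≤ ∑ p ∈ S, w p := by rw [hsumS]; exact hqs
  set n := ∏ p ∈ S, p with hn
  have hn0 : 0 < n := prod_pos' S hSp
  have hqS : q ∈ S := by rw [hS, hPSq]; simp
  have hqn : q ≤ n := Nat.le_of_dvd hn0 (dvd_prod_of_mem _ hqS)
  have hprodpos : ∀ T : Finset ℕ, 0 < ∏ p ∈ T, ((p : ℝ) + 1) := fun T => prod_pos fun p _ => by positivity
  have hwnn : ∀ p ∈ S, 0 ≤ w p := fun p hp => by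
    have := w_lower p (hSq p hp).1
    have h2 : (0:ℝ) ≤ 1 / ((p:ℝ) + 1) := by positivity
    linarith
  refine ⟨n, by omega, ⟨hn0, ?_⟩, hn0, ?_, ?_⟩
  · -- deficient
    have h1 : ((∑ d ∈ n.divisors, d : ℕ) : ℝ) < ((2 * n : ℕ) : ℝ) := by
      have e1 : ((∑ d ∈ n.divisors, d : ℕ) : ℝ) = sig n := by unfold sig; push_cast; rfl
      rw [e1, hn, sig_prod S hSp]
      have hprod : (∏ p ∈ S, ((p:ℝ) + 1)) = (∏ p ∈ S, (1 + 1 / (p:ℝ))) * ∏ p ∈ S, (p:ℝ) := by
        rw [← prod_mul_distrib]
        apply prod_congr rfl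
        intro p hp
        have : (p:ℝ) ≠ 0 := by exact_mod_cast (hSp p hp).ne_zero
        field_simp
      rw [hprod]
      push_cast
      apply mul_lt_mul_of_pos_right _ (prod_pos fun p hp => by exact_mod_cast (hSp p hp).pos)
      have hlogs : Real.log (∏ p ∈ S, (1 + 1 / (p:ℝ))) < Real.log 2 := by
        rw [Real.log_prod (fun p hp => by positivity)]
        rw [hS, sum_insert h2not]
        have h3 : ∑ p ∈ PS P q, Real.log (1 + 1 / (p:ℝ)) ≤ ∑ p ∈ PS P q, w p := by
          apply sum_le_sum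
          intro p hp
          exact log_le_w p (hSq p (by rw [hS]; exact mem_insert_of_mem hp)).1
        have h4 : w q ≤ 1 / 30 := by
          refine (w_upper q (by omega)).trans ?_
          have : (31:ℝ) ≤ q := by exact_mod_cast (by omega : 31 ≤ q)
          rw [div_le_div_iff₀ (by linarith) (by norm_num)]
          linarith
        have h5 : Real.log (1 + 1 / ((2:ℕ):ℝ)) + 1 / 30 ≤ w 2 := by
          have e3 : (1 + 1 / ((2:ℕ):ℝ)) = 3 / 2 := by norm_num
          rw [e3, w2, Real.log_div (by norm_num) (by norm_num)]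
          have h6 := Real.one_sub_inv_le_log_of_pos (show (0:ℝ) < 32 / 27 by norm_num)
          have h7 : Real.log (32 / 27) = 5 * Real.log 2 - 3 * Real.log 3 := by
            rw [Real.log_div (by norm_num) (by norm_num)]
            have e5 : (32:ℝ) = 2 ^ 5 := by norm_num
            have e6 : (27:ℝ) = 3 ^ 3 := by norm_num
            rw [e5, e6, Real.log_pow, Real.log_pow]
            norm_num
          rw [h7] at h6
          norm_num at h6
          linarith
        rw [hsumS] at hsumS_lt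
        linarith
      exact (Real.log_lt_log_iff (prod_pos fun p _ => by positivity) (by norm_num)).1 hlogs
    exact_mod_cast h1
  · rw [hn, KL_prod S hSp]
    apply mul_nonneg (hprodpos S).le
    linarith
  · intro d hd hdn
    have hsq : Squarefree n := by
      rw [hn]
      exact sqf_prod S hSp
    have hdsq : Squarefree d := hsq.squarefree_of_dvd hd
    have hd0 : d ≠ 0 := hdsq.ne_zero
    have hdprod : ∏ p ∈ d.primeFactors, p = d := Nat.prod_primeFactors_of_squarefree hdsq
    have hT : d.primeFactors ⊆ S := by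
      intro p hp
      rw [Nat.mem_primeFactors] at hp
      by_contra hpS
      exact not_dvd_prod S hSp p hp.1 hpS (hp.2.1.trans hd)
    have hne : ∃ p0 ∈ S, p0 ∉ d.primeFactors := by
      by_contra hcon
      push Not at hcon
      have : d.primeFactors = S := Subset.antisymm hT hcon
      rw [this] at hdprod
      omega
    obtain ⟨p0, hp0S, hp0⟩ := hne
    have hsum : ∑ p ∈ d.primeFactors, w p ≤ ∑ p ∈ S, w p - w p0 := by
      have h1 : d.primeFactors ⊆ S.erase p0 := by
        intro p hp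
        rw [mem_erase]
        refine ⟨?_, hT hp⟩
        rintro rfl
        exact hp0 hp
      have h2 := sum_le_sum_of_subset_of_nonneg h1 (f := w)
        (fun p hp _ => hwnn p (mem_of_mem_erase hp))
      have h3 := Finset.sum_erase_add S w hp0S
      linarith
    have hw : w q ≤ w p0 := w_anti p0 q (hSq p0 hp0S).1 (hSq p0 hp0S).2
    rw [← hdprod, KL_prod _ (fun p hp => Nat.prime_of_mem_primeFactors hp)]
    apply mul_neg_of_pos_of_neg (hprodpos _)
    linarith

/-- There are infinitely many positive integers that are both deficient and KL-primitive. -/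
theorem result : {n : ℕ | IsDeficient n ∧ IsKLPrimitive n}.Infinite := by
  apply Set.infinite_of_forall_exists_gt
  intro a
  obtain ⟨n, h1, h2, h3⟩ := exists_large (max a 31) (le_max_right _ _)
  exact ⟨n, ⟨h2, h3⟩, lt_of_le_of_lt (le_max_left _ _) h1⟩

end Pool.Agent.Results.MP_8dd099_nt.InfinitelyMany
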